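import Pool.Agent.helper52.IR.Spec

/-!
# Project IR, row BLK: an inequality of large sieve type by blocks

Duality as in the docstring; instead of the derivative of the transform we use the transform of `f/h`, `h(v) = ∫_(|t| ≤ 1/2) e^(-i t v) dt`,
`|h| ≥ 7/8` on `[0, 1]`, whose average over `|ξ - ξ_j| ≤ 1/2` is the transform of `f` at `ξ_j`.
-/

set_option autoImplicit false

namespace Pool.Agent.IR

open Pool.Agent.RS
open MeasureTheory Set ComplexConjugate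

noncomputable section

/-- `e^(i x)` -/
def BLK_E (x : ℝ) : ℂ := Complex.exp ((x : ℂ) * Complex.I)

lemma BLK_E_cont : Continuous BLK_E := by
  unfold BLK_E
  fun_prop

lemma BLK_E_norm (x : ℝ) : ‖BLK_E x‖ = 1 := Complex.norm_exp_ofReal_mul_I x

lemma BLK_E_add (x y : ℝ) : BLK_E (x + y) = BLK_E x * BLK_E y := by
  unfold BLK_E
  rw [← Complex.exp_add]
  push_cast
  ring_nf

lemma BLK_E_conj (x : ℝ) : conj (BLK_E x) = BLK_E (-x) := by
  unfold BLK_E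
  rw [← Complex.exp_conj]
  simp

lemma BLK_ps (P : Finset ℤ) (s : ℝ) : ps P s = ∑ p ∈ P, BLK_E (p * s) := rfl

lemma BLK_int1 {E : Type} [NormedAddCommGroup E] (Y : Set ℝ) (hYs : Y ⊆ Icc 0 1) (F : ℝ → E) (hF : Continuous F) :
    Integrable F (volume.restrict Y) :=
  (hF.continuousOn.integrableOn_compact (isCompact_Icc (a := (0 : ℝ)) (b := 1))).mono_set hYs

lemma BLK_int2 {E : Type} [NormedAddCommGroup E] (Y : Set ℝ) (hYs : Y ⊆ Icc 0 1) (F : ℝ × ℝ → E) (hF : Continuous F) :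
    Integrable F ((volume.restrict Y).prod (volume.restrict Y)) := by
  rw [Measure.prod_restrict]
  have h1 : IntegrableOn F ((Icc (0 : ℝ) 1) ×ˢ (Icc (0 : ℝ) 1)) ((volume : Measure ℝ).prod (volume : Measure ℝ)) :=
    hF.continuousOn.integrableOn_compact (isCompact_Icc.prod isCompact_Icc)
  exact h1.mono_set (prod_mono hYs hYs)

lemma BLK_int3 {E : Type} [NormedAddCommGroup E] (Y : Set ℝ) (hYs : Y ⊆ Icc 0 1) (a b : ℝ) (F : ℝ × (ℝ × ℝ) → E) (hF : Continuous F) :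
    Integrable F ((volume.restrict (Ioc a b)).prod ((volume.restrict Y).prod (volume.restrict Y))) := by
  rw [Measure.prod_restrict, Measure.prod_restrict]
  have h1 : IntegrableOn F ((Icc a b) ×ˢ ((Icc (0 : ℝ) 1) ×ˢ (Icc (0 : ℝ) 1)))
      ((volume : Measure ℝ).prod ((volume : Measure ℝ).prod (volume : Measure ℝ))) :=
    hF.continuousOn.integrableOn_compact (isCompact_Icc.prod (isCompact_Icc.prod isCompact_Icc))
  exact h1.mono_set (prod_mono Ioc_subset_Icc_self (prod_mono hYs hYs))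

lemma BLK_int12 {E : Type} [NormedAddCommGroup E] (Y : Set ℝ) (hYs : Y ⊆ Icc 0 1) (a b : ℝ) (F : ℝ × ℝ → E) (hF : Continuous F) :
    Integrable F ((volume.restrict (Ioc a b)).prod (volume.restrict Y)) := by
  rw [Measure.prod_restrict]
  have h1 : IntegrableOn F ((Icc a b) ×ˢ (Icc (0 : ℝ) 1)) ((volume : Measure ℝ).prod (volume : Measure ℝ)) :=
    hF.continuousOn.integrableOn_compact (isCompact_Icc.prod isCompact_Icc)
  exact h1.mono_set (prod_mono Ioc_subset_Icc_self hYs)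

/-- Cauchy and Schwarz -/
lemma BLK_CS {α : Type} [MeasurableSpace α] (ν : Measure α) (f g : α → ℝ) (h1 : Integrable (fun x => f x ^ 2) ν) (h2 : Integrable (fun x => g x ^ 2) ν)
    (h3 : Integrable (fun x => f x * g x) ν) : (∫ x, f x * g x ∂ν) ^ 2 ≤ (∫ x, f x ^ 2 ∂ν) * ∫ x, g x ^ 2 ∂ν := by
  have h4 : ∀ t : ℝ, 0 ≤ (∫ x, g x ^ 2 ∂ν) * (t * t) + (-(2 * ∫ x, f x * g x ∂ν)) * t + ∫ x, f x ^ 2 ∂ν := by
    intro t
    have h5 : 0 ≤ ∫ x, (f x - t * g x) ^ 2 ∂ν := integral_nonneg (fun _ => sq_nonneg _)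
    have h6 : ∫ x, (f x - t * g x) ^ 2 ∂ν = ∫ x, (f x ^ 2 - (2 * t) * (f x * g x)) + (t * t) * g x ^ 2 ∂ν := by
      congr 1
      funext x
      ring
    have h7 : Integrable (fun x => f x ^ 2 - (2 * t) * (f x * g x)) ν := h1.sub (h3.const_mul _)
    rw [h6, integral_add h7 (h2.const_mul _), integral_sub h1 (h3.const_mul _), integral_const_mul, integral_const_mul] at h5
    linarith
  have h5 := discrim_le_zero h4
  unfold discrim at h5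
  nlinarith

lemma BLK_shift (f : ℝ → ℂ) (a s : ℝ) (hs : 0 ≤ s) : ∫ ξ in Ioc a (a + s), f ξ = ∫ η in Ioc 0 s, f (a + η) := by
  rw [← intervalIntegral.integral_of_le (by linarith), ← intervalIntegral.integral_of_le hs]
  have h1 := intervalIntegral.integral_comp_add_left (a := (0 : ℝ)) (b := s) f a
  rw [add_zero] at h1
  exact h1.symm

/-- the transform of one cell -/
def BLK_k (c s : ℝ) (q : ℤ) (θ : ℝ) : ℂ := ∫ ξ in Ioc (c + s * (q : ℝ)) (c + s * ((q : ℝ) + 1)), BLK_E (-(ξ * θ))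

lemma BLK_K (c s θ : ℝ) (hs : 0 < s) (P : Finset ℤ) :
    ‖∑ q ∈ P, BLK_k c s q θ‖ ≤ s * ‖ps P (s * θ)‖ := by
  have h1 : ∀ q ∈ P, BLK_k c s q θ =
      conj (BLK_E ((q : ℝ) * (s * θ))) * (BLK_E (-(c * θ)) * ∫ η in Ioc 0 s, BLK_E (-(η * θ))) := by
    intro q _
    unfold BLK_k
    have h2 : c + s * ((q : ℝ) + 1) = (c + s * q) + s := by ring
    rw [h2, BLK_shift _ _ _ hs.le, ← integral_const_mul, ← integral_const_mul]
    congr 1
    funext η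
    rw [BLK_E_conj, ← BLK_E_add, ← BLK_E_add]
    congr 1
    ring
  rw [Finset.sum_congr rfl h1, ← Finset.sum_mul, ← map_sum, ← BLK_ps, norm_mul, norm_mul, BLK_E_norm, one_mul, RCLike.norm_conj, mul_comm]
  refine mul_le_mul_of_nonneg_right ?_ (norm_nonneg _)
  refine le_trans (norm_integral_le_integral_norm _) ?_
  simp only [BLK_E_norm]
  rw [setIntegral_const, smul_eq_mul, mul_one, Real.volume_real_Ioc]
  simp [hs.le]

lemma BLK_sq (Y : Set ℝ) (g : ℝ → ℂ) (ξ : ℝ) :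
    ((‖∫ v in Y, g v * BLK_E (-(ξ * v))‖ ^ 2 : ℝ) : ℂ) =
      ∫ p : ℝ × ℝ, (g p.1 * conj (g p.2)) * BLK_E (-(ξ * (p.1 - p.2))) ∂((volume.restrict Y).prod (volume.restrict Y)) := by
  have h1 : ((‖∫ v in Y, g v * BLK_E (-(ξ * v))‖ ^ 2 : ℝ) : ℂ) = (∫ v in Y, g v * BLK_E (-(ξ * v))) * conj (∫ v in Y, g v * BLK_E (-(ξ * v))) := by
    rw [Complex.mul_conj, Complex.normSq_eq_norm_sq]
  rw [h1, ← integral_conj, ← integral_prod_mul]
  congr 1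
  funext p
  rw [map_mul, BLK_E_conj, neg_neg]
  have h2 : -(ξ * (p.1 - p.2)) = -(ξ * p.1) + ξ * p.2 := by ring
  rw [h2, BLK_E_add]
  ring

lemma BLK_cells (Y : Set ℝ) (hYs : Y ⊆ Icc 0 1) (g : ℝ → ℂ) (hg : Continuous g) (c s : ℝ) (hs : 0 < s) (P : Finset ℤ) :
    ∑ q ∈ P, ∫ ξ in Ioc (c + s * (q : ℝ)) (c + s * ((q : ℝ) + 1)), ‖∫ v in Y, g v * BLK_E (-(ξ * v))‖ ^ 2 ≤
      s * (∫ v in Y, ‖g v‖ ^ 2) * Real.sqrt (∫ v in Y, ∫ v' in Y, ‖ps P (s * (v - v'))‖ ^ 2) := by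
  have hE := BLK_E_cont
  have hps : Continuous (fun x : ℝ => ps P x) := by
    simp only [BLK_ps]
    fun_prop
  set μ2 := (volume.restrict Y).prod (volume.restrict Y) with hμ2
  -- the sum as an integral
  have h1 : ((∑ q ∈ P, ∫ ξ in Ioc (c + s * (q : ℝ)) (c + s * ((q : ℝ) + 1)), ‖∫ v in Y, g v * BLK_E (-(ξ * v))‖ ^ 2 : ℝ) : ℂ) =
      ∫ p : ℝ × ℝ, (g p.1 * conj (g p.2)) * ∑ q ∈ P, BLK_k c s q (p.1 - p.2) ∂μ2 := by
    push_cast
    have h2 : ∀ q ∈ P, (((∫ ξ in Ioc (c + s * (q : ℝ)) (c + s * ((q : ℝ) + 1)), ‖∫ v in Y, g v * BLK_E (-(ξ * v))‖ ^ 2 : ℝ)) : ℂ) =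
        ∫ p : ℝ × ℝ, (g p.1 * conj (g p.2)) * BLK_k c s q (p.1 - p.2) ∂μ2 := by
      intro q _
      rw [← integral_complex_ofReal]
      have h3 : ∀ ξ : ℝ, (((‖∫ v in Y, g v * BLK_E (-(ξ * v))‖ ^ 2 : ℝ)) : ℂ) = ∫ p : ℝ × ℝ, (g p.1 * conj (g p.2)) * BLK_E (-(ξ * (p.1 - p.2))) ∂μ2 :=
        fun ξ => BLK_sq Y g ξ
      have h4 : ∫ ξ in Ioc (c + s * (q : ℝ)) (c + s * ((q : ℝ) + 1)), (((‖∫ v in Y, g v * BLK_E (-(ξ * v))‖ ^ 2 : ℝ)) : ℂ) =
          ∫ ξ in Ioc (c + s * (q : ℝ)) (c + s * ((q : ℝ) + 1)), ∫ p : ℝ × ℝ, (g p.1 * conj (g p.2)) * BLK_E (-(ξ * (p.1 - p.2))) ∂μ2 := by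
        congr 1
        funext ξ
        exact h3 ξ
      refine h4.trans ?_
      rw [integral_integral_swap]
      · congr 1
        funext p
        unfold BLK_k
        rw [integral_const_mul]
      · exact BLK_int3 Y hYs _ _ (fun z : ℝ × (ℝ × ℝ) => (g z.2.1 * conj (g z.2.2)) * BLK_E (-(z.1 * (z.2.1 - z.2.2)))) (by fun_prop)
    have h3 : ∀ q ∈ P, Integrable (fun p : ℝ × ℝ => (g p.1 * conj (g p.2)) * BLK_k c s q (p.1 - p.2)) μ2 := by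
      intro q _
      have h5 := (BLK_int3 Y hYs (c + s * (q : ℝ)) (c + s * ((q : ℝ) + 1)) (fun z : ℝ × (ℝ × ℝ) => (g z.2.1 * conj (g z.2.2)) * BLK_E (-(z.1 * (z.2.1 - z.2.2)))) (by fun_prop)).integral_prod_right
      refine h5.congr (Filter.Eventually.of_forall ?_)
      intro p
      show (∫ x in Ioc (c + s * (q : ℝ)) (c + s * ((q : ℝ) + 1)), (g p.1 * conj (g p.2)) * BLK_E (-(x * (p.1 - p.2)))) = _
      unfold BLK_k
      exact integral_const_mul _ _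
    have h4 : (∑ q ∈ P, (((∫ ξ in Ioc (c + s * (q : ℝ)) (c + s * ((q : ℝ) + 1)), ‖∫ v in Y, g v * BLK_E (-(ξ * v))‖ ^ 2 : ℝ)) : ℂ)) =
        ∑ q ∈ P, ∫ p : ℝ × ℝ, (g p.1 * conj (g p.2)) * BLK_k c s q (p.1 - p.2) ∂μ2 :=
      Finset.sum_congr rfl h2
    refine h4.trans ?_
    rw [← integral_finsetSum _ h3]
    congr 1
    funext p
    rw [Finset.mul_sum]
  have h2 : 0 ≤ ∑ q ∈ P, ∫ ξ in Ioc (c + s * (q : ℝ)) (c + s * ((q : ℝ) + 1)), ‖∫ v in Y, g v * BLK_E (-(ξ * v))‖ ^ 2 :=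
    Finset.sum_nonneg (fun _ _ => integral_nonneg (fun _ => sq_nonneg _))
  have h3 : ∑ q ∈ P, ∫ ξ in Ioc (c + s * (q : ℝ)) (c + s * ((q : ℝ) + 1)), ‖∫ v in Y, g v * BLK_E (-(ξ * v))‖ ^ 2 ≤
      ∫ p : ℝ × ℝ, (‖g p.1‖ * ‖g p.2‖) * (s * ‖ps P (s * (p.1 - p.2))‖) ∂μ2 := by
    have h4 : ∑ q ∈ P, ∫ ξ in Ioc (c + s * (q : ℝ)) (c + s * ((q : ℝ) + 1)), ‖∫ v in Y, g v * BLK_E (-(ξ * v))‖ ^ 2 =
        ‖((∑ q ∈ P, ∫ ξ in Ioc (c + s * (q : ℝ)) (c + s * ((q : ℝ) + 1)), ‖∫ v in Y, g v * BLK_E (-(ξ * v))‖ ^ 2 : ℝ) : ℂ)‖ := by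
      rw [Complex.norm_real, Real.norm_of_nonneg h2]
    rw [h4, h1]
    refine le_trans (norm_integral_le_integral_norm _) ?_
    refine integral_mono_of_nonneg (Filter.Eventually.of_forall (fun _ => norm_nonneg _)) ?_ (Filter.Eventually.of_forall ?_)
    · exact BLK_int2 Y hYs (fun p : ℝ × ℝ => (‖g p.1‖ * ‖g p.2‖) * (s * ‖ps P (s * (p.1 - p.2))‖)) (by fun_prop)
    · intro p
      show ‖(g p.1 * conj (g p.2)) * ∑ q ∈ P, BLK_k c s q (p.1 - p.2)‖ ≤ _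
      rw [norm_mul, norm_mul, RCLike.norm_conj]
      exact mul_le_mul_of_nonneg_left (BLK_K c s (p.1 - p.2) hs P) (by positivity)
  refine le_trans h3 ?_
  have h4 : ∫ p : ℝ × ℝ, (‖g p.1‖ * ‖g p.2‖) * (s * ‖ps P (s * (p.1 - p.2))‖) ∂μ2 = s * ∫ p : ℝ × ℝ, (‖g p.1‖ * ‖g p.2‖) * ‖ps P (s * (p.1 - p.2))‖ ∂μ2 := by
    rw [← integral_const_mul]
    congr 1
    funext p
    ring
  rw [h4, mul_assoc]
  refine mul_le_mul_of_nonneg_left ?_ hs.le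
  have h5 := BLK_CS μ2 (fun p => ‖g p.1‖ * ‖g p.2‖) (fun p => ‖ps P (s * (p.1 - p.2))‖)
    (BLK_int2 Y hYs _ (by fun_prop)) (BLK_int2 Y hYs _ (by fun_prop)) (BLK_int2 Y hYs _ (by fun_prop))
  have h6 : ∫ p : ℝ × ℝ, (‖g p.1‖ * ‖g p.2‖) ^ 2 ∂μ2 = (∫ v in Y, ‖g v‖ ^ 2) ^ 2 := by
    rw [sq (∫ v in Y, ‖g v‖ ^ 2), ← integral_prod_mul]
    congr 1
    funext p
    ring
  have h7 : ∫ p : ℝ × ℝ, ‖ps P (s * (p.1 - p.2))‖ ^ 2 ∂μ2 = ∫ v in Y, ∫ v' in Y, ‖ps P (s * (v - v'))‖ ^ 2 :=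
    integral_prod _ (BLK_int2 Y hYs _ (by fun_prop))
  rw [h6, h7] at h5
  have h8 : 0 ≤ ∫ v in Y, ‖g v‖ ^ 2 := integral_nonneg (fun _ => sq_nonneg _)
  have h9 : 0 ≤ ∫ v in Y, ∫ v' in Y, ‖ps P (s * (v - v'))‖ ^ 2 := integral_nonneg (fun _ => integral_nonneg (fun _ => sq_nonneg _))
  refine le_trans (le_abs_self _) (abs_le_of_sq_le_sq ?_ (by positivity))
  rw [mul_pow, Real.sq_sqrt h9]
  exact h5

/-- the transform of the interval `[-1/2, 1/2]` -/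
def BLK_h (v : ℝ) : ℂ := ∫ η in Ioc (0 : ℝ) 1, BLK_E (-((η - 1 / 2) * v))

lemma BLK_h_cont : Continuous BLK_h := by
  have hE := BLK_E_cont
  have h1 : BLK_h = fun v => ∫ η in Icc (0 : ℝ) 1, BLK_E (-((η - 1 / 2) * v)) := by
    funext v
    rw [integral_Icc_eq_integral_Ioc]
    rfl
  rw [h1]
  exact continuous_parametric_integral_of_continuous (f := fun (v η : ℝ) => BLK_E (-((η - 1 / 2) * v))) (by fun_prop) isCompact_Icc

lemma BLK_h_lb (v : ℝ) (h0 : 0 ≤ v) (h1 : v ≤ 1) : 7 / 8 ≤ ‖BLK_h v‖ := by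
  have hE := BLK_E_cont
  refine le_trans ?_ (Complex.re_le_norm _)
  have h2 : Integrable (fun η : ℝ => BLK_E (-((η - 1 / 2) * v))) (volume.restrict (Ioc (0 : ℝ) 1)) :=
    BLK_int1 _ Ioc_subset_Icc_self _ (by fun_prop)
  have h3 : (BLK_h v).re = ∫ η in Ioc (0 : ℝ) 1, (BLK_E (-((η - 1 / 2) * v))).re := (integral_re h2).symm
  rw [h3]
  have h4 : (7 / 8 : ℝ) = ∫ _ in Ioc (0 : ℝ) 1, (7 / 8 : ℝ) := by
    rw [setIntegral_const, Real.volume_real_Ioc]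
    simp
  rw [h4]
  refine setIntegral_mono_on ?_ ?_ measurableSet_Ioc ?_
  · exact BLK_int1 _ Ioc_subset_Icc_self _ continuous_const
  · exact BLK_int1 _ Ioc_subset_Icc_self _ (by fun_prop)
  · intro η hη
    have h5 : (BLK_E (-((η - 1 / 2) * v))).re = Real.cos (-((η - 1 / 2) * v)) := Complex.exp_ofReal_mul_I_re _
    rw [h5]
    have h6 := Real.one_sub_sq_div_two_le_cos (x := -((η - 1 / 2) * v))
    have h7 : (-((η - 1 / 2) * v)) ^ 2 ≤ 1 / 4 := by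
      have h8 : |(η - 1 / 2) * v| ≤ 1 / 2 := by
        rw [abs_mul, abs_of_nonneg h0]
        have h9 : |η - 1 / 2| ≤ 1 / 2 := abs_le.mpr ⟨by linarith [hη.1], by linarith [hη.2]⟩
        calc |η - 1 / 2| * v ≤ 1 / 2 * 1 := mul_le_mul h9 h1 h0 (by norm_num)
          _ = 1 / 2 := by norm_num
      rw [neg_sq, ← sq_abs]
      nlinarith [abs_nonneg ((η - 1 / 2) * v)]
    linarith

/-- the projection to `[0, 1]` -/
def BLK_c (v : ℝ) : ℝ := max 0 (min 1 v)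

lemma BLK_c_cont : Continuous BLK_c := by
  unfold BLK_c
  fun_prop

lemma BLK_c_mem (v : ℝ) : 0 ≤ BLK_c v ∧ BLK_c v ≤ 1 := by
  unfold BLK_c
  exact ⟨le_max_left _ _, max_le zero_le_one (min_le_left _ _)⟩

lemma BLK_c_eq (v : ℝ) (h : v ∈ Icc (0 : ℝ) 1) : BLK_c v = v := by
  unfold BLK_c
  rw [min_eq_right h.2, max_eq_right h.1]

lemma BLK_G_cont (Y : Set ℝ) (hYs : Y ⊆ Icc 0 1) (g : ℝ → ℂ) (hg : Continuous g) : Continuous (fun ξ : ℝ => ∫ v in Y, g v * BLK_E (-(ξ * v))) := by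
  have hE := BLK_E_cont
  refine continuous_of_dominated (bound := fun v => ‖g v‖) ?_ ?_ ?_ ?_
  · intro ξ
    exact (BLK_int1 Y hYs (fun v => g v * BLK_E (-(ξ * v))) (by fun_prop)).aestronglyMeasurable
  · intro ξ
    refine Filter.Eventually.of_forall (fun v => ?_)
    rw [norm_mul, BLK_E_norm, mul_one]
  · exact BLK_int1 Y hYs _ (by fun_prop)
  · refine Filter.Eventually.of_forall (fun v => ?_)
    fun_prop

lemma BLK_avg (Y : Set ℝ) (hY : MeasurableSet Y) (hYs : Y ⊆ Icc 0 1) (f g : ℝ → ℂ) (hg : Continuous g) (hfg : ∀ v ∈ Y, f v = g v * BLK_h v) (ξ : ℝ) :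
    ‖∫ v in Y, f v * BLK_E (-(ξ * v))‖ ^ 2 ≤ ∫ η in Ioc (ξ - 1 / 2) (ξ + 1 / 2), ‖∫ v in Y, g v * BLK_E (-(η * v))‖ ^ 2 := by
  have hE := BLK_E_cont
  have hG := BLK_G_cont Y hYs g hg
  have h1 : ∫ v in Y, f v * BLK_E (-(ξ * v)) = ∫ η in Ioc (ξ - 1 / 2) (ξ + 1 / 2), ∫ v in Y, g v * BLK_E (-(η * v)) := by
    have h2 : ξ + 1 / 2 = (ξ - 1 / 2) + 1 := by ring
    rw [h2, BLK_shift _ _ _ zero_le_one, integral_integral_swap]
    · refine setIntegral_congr_fun hY ?_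
      intro v hv
      show f v * BLK_E (-(ξ * v)) = ∫ η in Ioc (0 : ℝ) 1, g v * BLK_E (-((ξ - 1 / 2 + η) * v))
      have h3 : ∀ η : ℝ, g v * BLK_E (-((ξ - 1 / 2 + η) * v)) = (g v * BLK_E (-(ξ * v))) * BLK_E (-((η - 1 / 2) * v)) := by
        intro η
        rw [mul_assoc, ← BLK_E_add]
        congr 2
        ring
      simp only [h3]
      rw [integral_const_mul, hfg v hv]
      show g v * BLK_h v * BLK_E (-(ξ * v)) = g v * BLK_E (-(ξ * v)) * BLK_h v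
      ring
    · exact BLK_int12 Y hYs 0 1 (fun z : ℝ × ℝ => g z.2 * BLK_E (-((ξ - 1 / 2 + z.1) * z.2))) (by fun_prop)
  rw [h1]
  have h2 : ‖∫ η in Ioc (ξ - 1 / 2) (ξ + 1 / 2), ∫ v in Y, g v * BLK_E (-(η * v))‖ ≤ ∫ η in Ioc (ξ - 1 / 2) (ξ + 1 / 2), ‖∫ v in Y, g v * BLK_E (-(η * v))‖ * 1 := by
    refine le_trans (norm_integral_le_integral_norm _) (le_of_eq ?_)
    simp only [mul_one]
  have hI : ∀ (F : ℝ → ℝ), Continuous F → Integrable F (volume.restrict (Ioc (ξ - 1 / 2) (ξ + 1 / 2))) := fun F hF =>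
    (hF.continuousOn.integrableOn_compact (isCompact_Icc (a := ξ - 1 / 2) (b := ξ + 1 / 2))).mono_set Ioc_subset_Icc_self
  have h3 := BLK_CS (volume.restrict (Ioc (ξ - 1 / 2) (ξ + 1 / 2))) (fun η => ‖∫ v in Y, g v * BLK_E (-(η * v))‖) (fun _ => (1 : ℝ))
    (hI _ (by fun_prop)) (hI _ (by fun_prop)) (hI _ (by fun_prop))
  have h4 : ∫ _ in Ioc (ξ - 1 / 2) (ξ + 1 / 2), ((1 : ℝ)) ^ 2 = 1 := by
    rw [setIntegral_const, Real.volume_real_Ioc]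
    have h5 : ξ + 1 / 2 - (ξ - 1 / 2) = 1 := by ring
    rw [h5]
    simp
  rw [h4, mul_one] at h3
  exact le_trans (pow_le_pow_left₀ (norm_nonneg _) h2 2) h3

lemma BLK_cover (Φ : ℝ → ℝ) (hΦ : Continuous Φ) (h0 : ∀ ξ, 0 ≤ Φ ξ) (J' P : Finset ℤ) (c s : ℝ)
    (hcov : ∀ j ∈ J', ∀ ξ : ℝ, |ξ - Real.pi * j / 2| ≤ 1 / 2 → ∃ q ∈ P, c + s * q ≤ ξ ∧ ξ ≤ c + s * (q + 1)) :
    ∑ j ∈ J', ∫ ξ in Ioc (Real.pi * (j : ℝ) / 2 - 1 / 2) (Real.pi * (j : ℝ) / 2 + 1 / 2), Φ ξ ≤ ∑ q ∈ P, ∫ ξ in Ioc (c + s * (q : ℝ)) (c + s * ((q : ℝ) + 1)), Φ ξ := by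
  classical
  have hint : ∀ a b : ℝ, IntegrableOn Φ (Icc a b) := fun a b => hΦ.continuousOn.integrableOn_compact isCompact_Icc
  have h1 : ∑ j ∈ J', ∫ ξ in Ioc (Real.pi * (j : ℝ) / 2 - 1 / 2) (Real.pi * (j : ℝ) / 2 + 1 / 2), Φ ξ =
      ∫ ξ, ∑ j ∈ J', (Ioc (Real.pi * (j : ℝ) / 2 - 1 / 2) (Real.pi * (j : ℝ) / 2 + 1 / 2)).indicator Φ ξ := by
    rw [integral_finsetSum]
    · refine Finset.sum_congr rfl (fun j _ => ?_)
      rw [integral_indicator measurableSet_Ioc]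
    · intro j _
      exact ((hint _ _).mono_set Ioc_subset_Icc_self).integrable_indicator measurableSet_Ioc
  have h2 : ∑ q ∈ P, ∫ ξ in Ioc (c + s * (q : ℝ)) (c + s * ((q : ℝ) + 1)), Φ ξ =
      ∫ ξ, ∑ q ∈ P, (Icc (c + s * (q : ℝ)) (c + s * ((q : ℝ) + 1))).indicator Φ ξ := by
    rw [integral_finsetSum]
    · refine Finset.sum_congr rfl (fun j _ => ?_)
      rw [integral_indicator measurableSet_Icc, integral_Icc_eq_integral_Ioc]
    · intro j _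
      exact (hint _ _).integrable_indicator measurableSet_Icc
  rw [h1, h2]
  refine integral_mono ?_ ?_ ?_
  · exact integrable_finsetSum _ (fun j _ => ((hint _ _).mono_set Ioc_subset_Icc_self).integrable_indicator measurableSet_Ioc)
  · exact integrable_finsetSum _ (fun j _ => (hint _ _).integrable_indicator measurableSet_Icc)
  · intro ξ
    show ∑ j ∈ J', (Ioc (Real.pi * (j : ℝ) / 2 - 1 / 2) (Real.pi * (j : ℝ) / 2 + 1 / 2)).indicator Φ ξ ≤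
      ∑ q ∈ P, (Icc (c + s * (q : ℝ)) (c + s * ((q : ℝ) + 1))).indicator Φ ξ
    have hR : ∀ q ∈ P, 0 ≤ (Icc (c + s * (q : ℝ)) (c + s * ((q : ℝ) + 1))).indicator Φ ξ :=
      fun q _ => indicator_nonneg (fun x _ => h0 x) ξ
    by_cases hex : ∃ j ∈ J', ξ ∈ Ioc (Real.pi * (j : ℝ) / 2 - 1 / 2) (Real.pi * (j : ℝ) / 2 + 1 / 2)
    · obtain ⟨j, hj, hξ⟩ := hex
      have h3 : ∑ j' ∈ J', (Ioc (Real.pi * (j' : ℝ) / 2 - 1 / 2) (Real.pi * (j' : ℝ) / 2 + 1 / 2)).indicator Φ ξ = Φ ξ := by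
        rw [Finset.sum_eq_single j]
        · exact indicator_of_mem hξ _
        · intro j' _ hne
          refine indicator_of_notMem ?_ _
          intro hξ'
          have hpi := Real.pi_gt_three
          rcases lt_or_gt_of_ne hne with h4 | h4
          · have h5 : (j' : ℝ) + 1 ≤ j := by exact_mod_cast h4
            have h6 : Real.pi * ((j' : ℝ) + 1) ≤ Real.pi * j := mul_le_mul_of_nonneg_left h5 (by linarith)
            have h7 := hξ.1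
            have h8 := hξ'.2
            nlinarith
          · have h5 : (j : ℝ) + 1 ≤ j' := by exact_mod_cast h4
            have h6 : Real.pi * ((j : ℝ) + 1) ≤ Real.pi * j' := mul_le_mul_of_nonneg_left h5 (by linarith)
            have h7 := hξ'.1
            have h8 := hξ.2
            nlinarith
        · intro h4
          exact absurd hj h4
      rw [h3]
      obtain ⟨q, hq, h4, h5⟩ := hcov j hj ξ (abs_le.mpr ⟨by linarith [hξ.1], by linarith [hξ.2]⟩)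
      have h6 : Φ ξ = (Icc (c + s * (q : ℝ)) (c + s * ((q : ℝ) + 1))).indicator Φ ξ := (indicator_of_mem (mem_Icc.mpr ⟨h4, h5⟩) _).symm
      rw [h6]
      exact Finset.single_le_sum (f := fun q : ℤ => (Icc (c + s * (q : ℝ)) (c + s * ((q : ℝ) + 1))).indicator Φ ξ) hR hq
    · have h3 : ∑ j' ∈ J', (Ioc (Real.pi * (j' : ℝ) / 2 - 1 / 2) (Real.pi * (j' : ℝ) / 2 + 1 / 2)).indicator Φ ξ = 0 := by
        refine Finset.sum_eq_zero (fun j hj => ?_)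
        refine indicator_of_notMem ?_ _
        intro hξ
        exact hex ⟨j, hj, hξ⟩
      rw [h3]
      exact Finset.sum_nonneg hR

theorem BLK_proof : BLK_stmt := by
  classical
  intro S Jb P c s Y J a hY hYs hs hcov hJ
  have hE := BLK_E_cont
  set f : ℝ → ℂ := fun v => ∑ j ∈ J, a j * BLK_E (Real.pi * j * v / 2) with hf
  have hfc : Continuous f := by
    rw [hf]
    fun_prop
  set N : ℝ := ∫ v in Y, ‖f v‖ ^ 2 with hN
  have hN0 : 0 ≤ N := integral_nonneg (fun _ => sq_nonneg _)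
  set g : ℝ → ℂ := fun v => f v / BLK_h (BLK_c v) with hg
  have hhne : ∀ v, BLK_h (BLK_c v) ≠ 0 := by
    intro v h
    have h1 := BLK_h_lb (BLK_c v) (BLK_c_mem v).1 (BLK_c_mem v).2
    rw [h, norm_zero] at h1
    linarith
  have hgc : Continuous g := hfc.div (BLK_h_cont.comp BLK_c_cont) hhne
  have hfg : ∀ v ∈ Y, f v = g v * BLK_h v := by
    intro v hv
    have h1 := BLK_c_eq v (hYs hv)
    have h2 := hhne v
    rw [h1] at h2
    rw [hg]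
    show f v = f v / BLK_h (BLK_c v) * BLK_h v
    rw [h1, div_mul_cancel₀ _ h2]
  have hgN : ∫ v in Y, ‖g v‖ ^ 2 ≤ 2 * N := by
    rw [hN, ← integral_const_mul]
    refine integral_mono (BLK_int1 Y hYs _ (by fun_prop)) (BLK_int1 Y hYs _ (by fun_prop)) ?_
    intro v
    have h1 := BLK_h_lb (BLK_c v) (BLK_c_mem v).1 (BLK_c_mem v).2
    show ‖f v / BLK_h (BLK_c v)‖ ^ 2 ≤ 2 * ‖f v‖ ^ 2
    rw [norm_div, div_pow, div_le_iff₀ (by positivity)]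
    have h2 : (7 / 8 : ℝ) ^ 2 ≤ ‖BLK_h (BLK_c v)‖ ^ 2 := pow_le_pow_left₀ (by norm_num) h1 2
    nlinarith [sq_nonneg ‖f v‖]
  -- the coefficients
  set F : ℤ → ℂ := fun j => ∫ v in Y, f v * BLK_E (-((Real.pi * j / 2) * v)) with hF
  set κ : ℤ → ℝ := fun i => Real.sqrt (∫ v in Y, ∫ v' in Y, ‖ps (P i) (s i * (v - v'))‖ ^ 2) with hκ
  have hκ0 : ∀ i, 0 ≤ κ i := fun i => Real.sqrt_nonneg _
  have hdual : (N : ℂ) = ∑ j ∈ J, a j * conj (F j) := by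
    have h1 : (N : ℂ) = ∫ v in Y, f v * conj (f v) := by
      rw [hN, ← integral_complex_ofReal]
      congr 1
      funext v
      rw [Complex.mul_conj, Complex.normSq_eq_norm_sq]
    have h2 : ∀ v, f v * conj (f v) = ∑ j ∈ J, a j * (BLK_E (Real.pi * j * v / 2) * conj (f v)) := by
      intro v
      rw [hf]
      show (∑ j ∈ J, a j * BLK_E (Real.pi * j * v / 2)) * _ = _
      rw [Finset.sum_mul]
      refine Finset.sum_congr rfl (fun j _ => ?_)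
      rw [mul_assoc]
    rw [h1]
    simp only [h2]
    rw [integral_finsetSum]
    · refine Finset.sum_congr rfl (fun j _ => ?_)
      rw [integral_const_mul, hF]
      show a j * _ = a j * conj (∫ v in Y, f v * BLK_E (-((Real.pi * j / 2) * v)))
      rw [← integral_conj]
      congr 2
      funext v
      rw [map_mul, BLK_E_conj, neg_neg, mul_comm]
      congr 2
      ring
    · intro j _
      exact BLK_int1 Y hYs _ (by fun_prop)
  have hbd : ∑ j ∈ J, ‖F j‖ ^ 2 ≤ 32 * (∑ i ∈ S, κ i) * N := by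
    have hG := BLK_G_cont Y hYs g hgc
    set Φ : ℝ → ℝ := fun η => ‖∫ v in Y, g v * BLK_E (-(η * v))‖ ^ 2 with hΦ
    have hΦc : Continuous Φ := by
      rw [hΦ]
      fun_prop
    have hΦ0 : ∀ ξ, 0 ≤ Φ ξ := fun ξ => sq_nonneg _
    have h1 : ∀ j ∈ J, ‖F j‖ ^ 2 ≤ ∫ ξ in Ioc (Real.pi * (j : ℝ) / 2 - 1 / 2) (Real.pi * (j : ℝ) / 2 + 1 / 2), Φ ξ :=
      fun j _ => BLK_avg Y hY hYs f g hgc hfg _
    have hch : ∀ j : ℤ, ∃ i : ℤ, j ∈ J → i ∈ S ∧ j ∈ Jb i := by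
      intro j
      by_cases hj : j ∈ J
      · obtain ⟨i, hi⟩ := hJ j hj
        exact ⟨i, fun _ => hi⟩
      · exact ⟨0, fun h => absurd h hj⟩
    choose φ hφ using hch
    have h2 : ∑ j ∈ J, ∫ ξ in Ioc (Real.pi * (j : ℝ) / 2 - 1 / 2) (Real.pi * (j : ℝ) / 2 + 1 / 2), Φ ξ =
        ∑ i ∈ S, ∑ j ∈ J with φ j = i, ∫ ξ in Ioc (Real.pi * (j : ℝ) / 2 - 1 / 2) (Real.pi * (j : ℝ) / 2 + 1 / 2), Φ ξ :=
      (Finset.sum_fiberwise_of_maps_to (fun j hj => (hφ j hj).1) _).symm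
    have h3 : ∀ i ∈ S, ∑ j ∈ J with φ j = i, ∫ ξ in Ioc (Real.pi * (j : ℝ) / 2 - 1 / 2) (Real.pi * (j : ℝ) / 2 + 1 / 2), Φ ξ ≤ 16 * N * κ i := by
      intro i hi
      have h4 := BLK_cover Φ hΦc hΦ0 (J.filter (fun j => φ j = i)) (P i) (c i) (s i) (by
        intro j hj ξ hξ
        have hj' := Finset.mem_filter.mp hj
        have h5 := (hφ j hj'.1).2
        rw [hj'.2] at h5
        exact hcov i hi j h5 ξ hξ)
      have h5 := BLK_cells Y hYs g hgc (c i) (s i) (hs i hi).1 (P i)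
      refine le_trans h4 (le_trans h5 ?_)
      have h6 : s i * ∫ v in Y, ‖g v‖ ^ 2 ≤ 8 * (2 * N) :=
        mul_le_mul (hs i hi).2 hgN (integral_nonneg (fun _ => sq_nonneg _)) (by norm_num)
      calc s i * (∫ v in Y, ‖g v‖ ^ 2) * κ i ≤ 8 * (2 * N) * κ i := mul_le_mul_of_nonneg_right h6 (hκ0 i)
        _ = 16 * N * κ i := by ring
    have h4 : ∑ i ∈ S, 16 * N * κ i = 16 * N * ∑ i ∈ S, κ i := by rw [Finset.mul_sum]
    have h5 : 0 ≤ N * ∑ i ∈ S, κ i := mul_nonneg hN0 (Finset.sum_nonneg (fun i _ => hκ0 i))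
    calc ∑ j ∈ J, ‖F j‖ ^ 2 ≤ _ := Finset.sum_le_sum h1
      _ = _ := h2
      _ ≤ ∑ i ∈ S, 16 * N * κ i := Finset.sum_le_sum h3
      _ = 16 * N * ∑ i ∈ S, κ i := h4
      _ ≤ 32 * (∑ i ∈ S, κ i) * N := by linarith
  have hfin : N ^ 2 ≤ (32 * (∑ i ∈ S, κ i) * ∑ j ∈ J, ‖a j‖ ^ 2) * N := by
    have h1 : N ≤ ∑ j ∈ J, ‖a j‖ * ‖F j‖ := by
      have h2 : N = ‖(N : ℂ)‖ := by rw [Complex.norm_real, Real.norm_of_nonneg hN0]
      rw [h2, hdual]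
      refine le_trans (norm_sum_le _ _) (le_of_eq ?_)
      refine Finset.sum_congr rfl (fun j _ => ?_)
      rw [norm_mul, RCLike.norm_conj]
    have h2 := Finset.sum_mul_sq_le_sq_mul_sq J (fun j => ‖a j‖) (fun j => ‖F j‖)
    have h3 : N ^ 2 ≤ (∑ j ∈ J, ‖a j‖ * ‖F j‖) ^ 2 := pow_le_pow_left₀ hN0 h1 2
    have h4 : 0 ≤ ∑ j ∈ J, ‖a j‖ ^ 2 := Finset.sum_nonneg (fun _ _ => sq_nonneg _)
    have h5 := mul_le_mul_of_nonneg_left hbd h4
    calc N ^ 2 ≤ _ := h3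
      _ ≤ _ := h2
      _ ≤ _ := h5
      _ = _ := by ring
  have hgoal : N ≤ 32 * (∑ i ∈ S, κ i) * ∑ j ∈ J, ‖a j‖ ^ 2 := by
    rcases eq_or_lt_of_le hN0 with h1 | h1
    · rw [← h1]
      have h2 : 0 ≤ ∑ i ∈ S, κ i := Finset.sum_nonneg (fun i _ => hκ0 i)
      have h3 : 0 ≤ ∑ j ∈ J, ‖a j‖ ^ 2 := Finset.sum_nonneg (fun _ _ => sq_nonneg _)
      positivity
    · rw [sq] at hfin
      exact le_of_mul_le_mul_right hfin h1
  exact hgoal

end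

end Pool.Agent.IR
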