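import Pool.Agent.helper52.IR.Spec

/-!
# Project IR, row CNT: the structure of a stable arc
-/

set_option autoImplicit false

open scoped MatrixGroups

namespace Pool.Agent.IR

open Pool.Agent.RS
open Pool.Agent.HV (FW)
open Set

noncomputable section

lemma CNT_tr (hGLC : RS.GLC_stmt) (e y : SL(2, ℝ)) (x0 z s t u K : ℝ) :
    e * y * nM (x0 + Real.exp (-s) * z) * aM t * lM u * aM (-K) =
      e * (y * nM x0 * aM (-s)) * nM z * aM t * lM (Real.exp (-s) * u) * aM (-(K - s)) := by
  obtain ⟨-, -, -, -, -, -, -, -, -, -, hA, hN, -, -, -, -, -, hna, hla, -⟩ := hGLC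
  have h1 : aM (-s) * nM z = nM (Real.exp (-s) * z) * aM (-s) := by
    rw [hna, ← mul_assoc, ← Real.exp_add, neg_neg, add_neg_cancel, Real.exp_zero, one_mul]
  have h2 : aM (-s) * aM t = aM t * aM (-s) := by
    rw [← hA, ← hA, add_comm]
  have h3 : aM (-s) * lM (Real.exp (-s) * u) = lM u * aM (-s) := (hla u (-s)).symm
  have h4 : aM (-s) * aM (-(K - s)) = aM (-K) := by
    rw [← hA]
    congr 1
    ring
  calc e * y * nM (x0 + Real.exp (-s) * z) * aM t * lM u * aM (-K)
      = e * y * (nM x0 * nM (Real.exp (-s) * z)) * aM t * lM u * (aM (-s) * aM (-(K - s))) := by rw [h4, hN]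
    _ = e * y * nM x0 * nM (Real.exp (-s) * z) * aM t * (lM u * aM (-s)) * aM (-(K - s)) := by simp only [mul_assoc]
    _ = e * y * nM x0 * nM (Real.exp (-s) * z) * aM t * (aM (-s) * lM (Real.exp (-s) * u)) * aM (-(K - s)) := by rw [h3]
    _ = e * y * nM x0 * nM (Real.exp (-s) * z) * (aM t * aM (-s)) * lM (Real.exp (-s) * u) * aM (-(K - s)) := by simp only [mul_assoc]
    _ = e * y * nM x0 * nM (Real.exp (-s) * z) * (aM (-s) * aM t) * lM (Real.exp (-s) * u) * aM (-(K - s)) := by rw [h2]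
    _ = e * y * nM x0 * (nM (Real.exp (-s) * z) * aM (-s)) * aM t * lM (Real.exp (-s) * u) * aM (-(K - s)) := by simp only [mul_assoc]
    _ = e * y * nM x0 * (aM (-s) * nM z) * aM t * lM (Real.exp (-s) * u) * aM (-(K - s)) := by rw [h1]
    _ = e * (y * nM x0 * aM (-s)) * nM z * aM t * lM (Real.exp (-s) * u) * aM (-(K - s)) := by simp only [mul_assoc]

lemma CNT_floor (a Λ : ℝ) : ⌊a + Λ⌋ ≤ ⌊a⌋ + ⌊Λ⌋ + 1 := by
  have h1 : ⌊a + Λ⌋ < ⌊a⌋ + ⌊Λ⌋ + 2 := by
    rw [Int.floor_lt]
    push_cast
    linarith [Int.lt_floor_add_one a, Int.lt_floor_add_one Λ]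
  omega

theorem CNT_proof (hCTB : CTB_stmt) (hGLC : RS.GLC_stmt) : CNT_stmt := by
  classical
  intro Γ hΓ
  obtain ⟨C, hC, hT⟩ := hCTB Γ hΓ
  refine ⟨max 1 (2403 * C), le_max_left _ _, ?_⟩
  intro b Λ2 ε2 p s1 Ap At As y hb hb1 hΛ hε hs1
  have hCm : 2403 * C ≤ max 1 (2403 * C) := le_max_right _ _
  have hCm1 : C ≤ max 1 (2403 * C) := by linarith
  set E2 : ℝ := Real.exp (2 * p) with hE2
  set e2 : ℝ := Real.exp (-(2 * p)) with he2
  have hE2pos : 0 < E2 := Real.exp_pos _
  have he2pos : 0 < e2 := Real.exp_pos _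
  have hEe : E2 * e2 = 1 := by
    rw [hE2, he2, ← Real.exp_add, add_neg_cancel, Real.exp_zero]
  have he21 : e2 ≤ 1 := Real.exp_le_one_iff.mpr (by have : (0 : ℝ) ≤ p := Nat.cast_nonneg p; linarith)
  -- the occupied points
  set O : ℝ → Prop := fun X => |X| ≤ 2 ∧ occ (WS Γ Ap At As b p s1) y X with hO
  have hblk : ∀ X : ℝ, 0 ≤ X - ⌊X * E2⌋ * e2 ∧ X - ⌊X * E2⌋ * e2 < e2 := by
    intro X
    have h1 := Int.floor_le (X * E2)
    have h2 := Int.lt_floor_add_one (X * E2)
    have h3 : X = (X * E2) * e2 := by rw [mul_assoc, hEe, mul_one]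
    constructor
    · have := mul_le_mul_of_nonneg_right h1 he2pos.le
      linarith
    · have := mul_lt_mul_of_pos_right h2 he2pos
      linarith
  set N : ℤ := ⌈2 * E2⌉ with hN
  set S : Finset ℤ := (Finset.Icc (-N) N).filter (fun I => ∃ X, O X ∧ ⌊X * E2⌋ = I) with hS
  have hXS : ∀ X, O X → ⌊X * E2⌋ ∈ S := by
    intro X hX
    refine Finset.mem_filter.mpr ⟨Finset.mem_Icc.mpr ⟨?_, ?_⟩, X, hX, rfl⟩
    · refine Int.le_floor.mpr ?_
      push_cast
      have h1 := Int.le_ceil (2 * E2)
      have h2 := (abs_le.mp hX.1).1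
      nlinarith
    · have h1 := Int.le_ceil (2 * E2)
      have h2 := (abs_le.mp hX.1).2
      have h3 := Int.floor_le (X * E2)
      have h4 : ((⌊X * E2⌋ : ℤ) : ℝ) ≤ (N : ℝ) := by
        rw [hN]
        nlinarith
      exact_mod_cast h4
  -- the cells of a block
  set q : ℤ → ℝ → ℤ := fun I X => ⌊(X - I * e2) / ε2⌋ with hq
  set N' : ℤ := ⌈Real.exp p * Λ2⌉ with hN'
  set Q : ℤ → Finset ℤ := fun I => (Finset.Icc 0 N').filter (fun k => ∃ X, O X ∧ ⌊X * E2⌋ = I ∧ q I X = k) with hQ
  have hqform : ∀ (I : ℤ) (X : ℝ), (X - I * e2) / ε2 = (E2 * (X - I * e2) * Real.exp p) * Λ2 := by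
    intro I X
    have h1 : ε2 = e2 * Real.exp (-p) / Λ2 := by
      rw [hε, he2, ← Real.exp_add]
      congr 2
      ring
    have h2 : Real.exp p * Real.exp (-p) = 1 := by
      rw [← Real.exp_add, add_neg_cancel, Real.exp_zero]
    have h3 : ε2 ≠ 0 := by
      rw [h1]
      positivity
    rw [div_eq_iff h3, h1]
    have h4 : Λ2 ≠ 0 := by positivity
    field_simp
    have h5 : (X - I * e2) = (E2 * e2) * (Real.exp p * Real.exp (-p)) * (X - I * e2) := by rw [hEe, h2]; ring
    linarith
  have hqQ : ∀ X, O X → q ⌊X * E2⌋ X ∈ Q ⌊X * E2⌋ := by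
    intro X hX
    obtain ⟨h1, h2⟩ := hblk X
    have h5 : 0 ≤ E2 * (X - ⌊X * E2⌋ * e2) := mul_nonneg hE2pos.le h1
    have h6 : E2 * (X - ⌊X * E2⌋ * e2) ≤ 1 := by
      have := mul_le_mul_of_nonneg_left h2.le hE2pos.le
      linarith
    have hp0 := Real.exp_pos (p : ℝ)
    refine Finset.mem_filter.mpr ⟨Finset.mem_Icc.mpr ⟨?_, ?_⟩, X, hX, rfl, rfl⟩
    · show 0 ≤ ⌊(X - ⌊X * E2⌋ * e2) / ε2⌋
      rw [hqform, Int.floor_nonneg]
      positivity
    · show ⌊(X - ⌊X * E2⌋ * e2) / ε2⌋ ≤ N'
      rw [hqform]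
      have h3 := Int.floor_le (E2 * (X - ⌊X * E2⌋ * e2) * Real.exp p * Λ2)
      have h4 := Int.le_ceil (Real.exp p * Λ2)
      have h7 : E2 * (X - ⌊X * E2⌋ * e2) * Real.exp p * Λ2 ≤ 1 * (Real.exp p * Λ2) := by
        rw [mul_assoc]
        exact mul_le_mul_of_nonneg_right h6 (by positivity)
      have h8 : ((⌊E2 * (X - ⌊X * E2⌋ * e2) * Real.exp p * Λ2⌋ : ℤ) : ℝ) ≤ (N' : ℝ) := by
        rw [hN']
        linarith
      exact_mod_cast h8
  set P : ℤ → Finset ℤ := fun I => (Q I ×ˢ Finset.Icc (-400) 400).image (fun z => z.1 + z.2) with hP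
  refine ⟨S, P, ?_, ?_⟩
  · constructor
    · -- number of blocks
      have h1 := hT b (2 * p) At y S hb hb1 (by positivity) (by
        intro m hm
        obtain ⟨X, hX, hXm⟩ := (Finset.mem_filter.mp hm).2
        obtain ⟨t, u, e, he, ht, hu, hW⟩ := hX.2
        refine ⟨X, t, u, e, he, by linarith [hX.1], ht, hu, ?_, ?_, hW.2.1⟩
        · rw [← hXm]
          exact Int.floor_le _
        · rw [← hXm]
          exact Int.lt_floor_add_one _)
      refine le_trans h1 (mul_le_mul_of_nonneg_right hCm1 (Nat.cast_nonneg _))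
    · -- number of cells in a block
      intro I hI
      have hch : ∀ k : ℤ, ∃ X : ℝ, k ∈ Q I → O X ∧ ⌊X * E2⌋ = I ∧ q I X = k := by
        intro k
        by_cases hk : k ∈ Q I
        · obtain ⟨X, hX⟩ := (Finset.mem_filter.mp hk).2
          exact ⟨X, fun _ => hX⟩
        · exact ⟨0, fun h => absurd h hk⟩
      choose X hX using hch
      set m : ℤ → ℤ := fun k => ⌊(E2 * (X k - I * e2)) * Real.exp p⌋ with hm
      have hz : ∀ k ∈ Q I, 0 ≤ E2 * (X k - I * e2) ∧ E2 * (X k - I * e2) ≤ 1 := by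
        intro k hk
        obtain ⟨h1, h2, h3⟩ := hX k hk
        obtain ⟨h4, h5⟩ := hblk (X k)
        rw [h2] at h4 h5
        refine ⟨mul_nonneg hE2pos.le h4, ?_⟩
        have := mul_le_mul_of_nonneg_left h5.le hE2pos.le
        linarith
      have h1 := hT b p Ap (y * nM (I * e2) * aM (-(2 * p))) ((Q I).image m) hb hb1 (Nat.cast_nonneg _) (by
        intro k' hk'
        obtain ⟨k, hk, rfl⟩ := Finset.mem_image.mp hk'
        obtain ⟨hO1, hO2, hO3⟩ := hX k hk
        obtain ⟨t, u, e, he, ht, hu, hW⟩ := hO1.2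
        obtain ⟨hz0, hz1⟩ := hz k hk
        refine ⟨E2 * (X k - I * e2), t, e2 * u, e, he, abs_le.mpr ⟨by linarith, by linarith⟩, ht, ?_, Int.floor_le _, Int.lt_floor_add_one _, ?_⟩
        · rw [abs_mul, abs_of_pos he2pos]
          nlinarith [abs_nonneg u]
        · have h2 := hW.1
          have h3 : X k = I * e2 + e2 * (E2 * (X k - I * e2)) := by
            have : e2 * (E2 * (X k - I * e2)) = (E2 * e2) * (X k - I * e2) := by ring
            rw [this, hEe]
            ring
          rw [h3] at h2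
          have h4 := CNT_tr hGLC e y (I * e2) (E2 * (X k - I * e2)) (2 * p) t u (3 * p)
          have h5 : (3 * (p : ℝ) - 2 * p) = p := by ring
          rw [h5] at h4
          rw [← h4]
          exact h2)
      have h2 : (Q I).card ≤ (⌊Λ2⌋₊ + 2) * ((Q I).image m).card := by
        refine Finset.card_le_mul_card_image _ _ ?_
        intro m' _
        have h3 : (Q I).filter (fun k => m k = m') ⊆ Finset.Icc ⌊(m' : ℝ) * Λ2⌋ ⌊(m' : ℝ) * Λ2 + Λ2⌋ := by
          intro k hk
          obtain ⟨hk1, hk2⟩ := Finset.mem_filter.mp hk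
          obtain ⟨hO1, hO2, hO3⟩ := hX k hk1
          have h4 : k = ⌊(E2 * (X k - I * e2) * Real.exp p) * Λ2⌋ := by
            rw [← hqform]
            exact hO3.symm
          have h5 := Int.floor_le (E2 * (X k - I * e2) * Real.exp p)
          have h6 := Int.lt_floor_add_one (E2 * (X k - I * e2) * Real.exp p)
          have h7 : ⌊E2 * (X k - I * e2) * Real.exp p⌋ = m' := hk2
          rw [h7] at h5 h6
          refine Finset.mem_Icc.mpr ⟨?_, ?_⟩
          · rw [h4]
            exact Int.floor_le_floor (mul_le_mul_of_nonneg_right h5 (by linarith))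
          · rw [h4]
            refine Int.floor_le_floor ?_
            have := mul_le_mul_of_nonneg_right h6.le (show 0 ≤ Λ2 by linarith)
            linarith
        refine le_trans (Finset.card_le_card h3) ?_
        rw [Int.card_Icc]
        have h4 := CNT_floor ((m' : ℝ) * Λ2) Λ2
        have h5 : (⌊Λ2⌋ : ℤ) = (⌊Λ2⌋₊ : ℤ) := (Int.natCast_floor_eq_floor (by linarith)).symm
        omega
      have h3 : (P I).card ≤ (Q I).card * 801 := by
        refine le_trans Finset.card_image_le ?_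
        have h801 : (Finset.Icc (-400 : ℤ) 400).card = 801 := by
          rw [Int.card_Icc]
          norm_num
          rfl
        rw [Finset.card_product, h801]
      have h4 : ((P I).card : ℝ) ≤ ((⌊Λ2⌋₊ : ℝ) + 2) * (((Q I).image m).card : ℝ) * 801 := by
        have : (P I).card ≤ (⌊Λ2⌋₊ + 2) * ((Q I).image m).card * 801 := le_trans h3 (Nat.mul_le_mul_right _ h2)
        exact_mod_cast this
      have h5 : (⌊Λ2⌋₊ : ℝ) ≤ Λ2 := Nat.floor_le (by linarith)
      have h6 : (0 : ℝ) ≤ Ap.card := Nat.cast_nonneg _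
      calc ((P I).card : ℝ) ≤ ((⌊Λ2⌋₊ : ℝ) + 2) * (((Q I).image m).card : ℝ) * 801 := h4
        _ ≤ (3 * Λ2) * (C * Ap.card) * 801 := by
            refine mul_le_mul_of_nonneg_right ?_ (by norm_num)
            exact mul_le_mul (by linarith) h1 (Nat.cast_nonneg _) (by linarith)
        _ = (2403 * C) * Λ2 * Ap.card := by ring
        _ ≤ max 1 (2403 * C) * Λ2 * Ap.card := by
            refine mul_le_mul_of_nonneg_right ?_ h6
            exact mul_le_mul_of_nonneg_right hCm (by linarith)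
    · intro I hI
      obtain ⟨X, hX, hXI⟩ := (Finset.mem_filter.mp hI).2
      obtain ⟨h1, h2⟩ := hblk X
      rw [hXI] at h1 h2
      have h3 := abs_le.mp hX.1
      exact abs_le.mpr ⟨by linarith, by linarith⟩
    · -- neighbours
      intro I hI
      have hs0 : (0 : ℝ) < Real.exp (-s1) := Real.exp_pos _
      have hs0' : (0 : ℝ) < Real.exp s1 := Real.exp_pos _
      have hss : Real.exp s1 * Real.exp (-s1) = 1 := by
        rw [← Real.exp_add, add_neg_cancel, Real.exp_zero]
      have hs1' : (s1 : ℝ) ≤ 2 * p := by exact_mod_cast hs1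
      have he2s : e2 ≤ Real.exp (-s1) := Real.exp_le_exp.mpr (by linarith)
      have hss1 : Real.exp (-(s1 : ℝ)) ≤ 1 := Real.exp_le_one_iff.mpr (by have : (0 : ℝ) ≤ s1 := Nat.cast_nonneg s1; linarith)
      set F : Finset ℤ := S.filter (fun i' => |(i' : ℝ) * e2 - I * e2| < Real.exp (-s1)) with hF
      have hcard : (F.image (fun i' => i' - I)).card = F.card := Finset.card_image_of_injective _ (fun a b h => by
        have h' : a - I = b - I := h
        omega)
      have h1 := hT b (2 * p - s1) As (y * nM (I * e2) * aM (-s1)) (F.image (fun i' => i' - I)) hb hb1 (by linarith) (by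
        intro k' hk'
        obtain ⟨I', hI', rfl⟩ := Finset.mem_image.mp hk'
        obtain ⟨hI'S, hdist⟩ := Finset.mem_filter.mp hI'
        obtain ⟨X, hX, hXI⟩ := (Finset.mem_filter.mp hI'S).2
        obtain ⟨t, u, e, he, ht, hu, hW⟩ := hX.2
        obtain ⟨g1, g2⟩ := hblk X
        rw [hXI] at g1 g2
        have hd := abs_lt.mp hdist
        have hform : Real.exp s1 * (X - I * e2) * Real.exp (2 * p - s1) = X * E2 - I := by
          have : Real.exp s1 * Real.exp (2 * p - s1) = E2 := by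
            rw [hE2, ← Real.exp_add]
            congr 1
            ring
          calc Real.exp s1 * (X - I * e2) * Real.exp (2 * p - s1) = (Real.exp s1 * Real.exp (2 * p - s1)) * (X - I * e2) := by ring
            _ = E2 * (X - I * e2) := by rw [this]
            _ = X * E2 - I * (E2 * e2) := by ring
            _ = X * E2 - I := by rw [hEe, mul_one]
        refine ⟨Real.exp s1 * (X - I * e2), t, Real.exp (-s1) * u, e, he, ?_, ht, ?_, ?_, ?_, ?_⟩
        · rw [abs_mul, abs_of_pos hs0']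
          have h2 : |X - I * e2| ≤ 2 * Real.exp (-s1) := abs_le.mpr ⟨by linarith, by linarith⟩
          calc Real.exp s1 * |X - I * e2| ≤ Real.exp s1 * (2 * Real.exp (-s1)) := mul_le_mul_of_nonneg_left h2 hs0'.le
            _ = 2 * (Real.exp s1 * Real.exp (-s1)) := by ring
            _ ≤ 4 := by rw [hss]; norm_num
        · rw [abs_mul, abs_of_pos hs0]
          nlinarith [abs_nonneg u]
        · rw [hform]
          push_cast
          have := Int.floor_le (X * E2)
          rw [hXI] at this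
          linarith
        · rw [hform]
          push_cast
          have := Int.lt_floor_add_one (X * E2)
          rw [hXI] at this
          linarith
        · have h2 := hW.2.2
          have h3 : X = I * e2 + Real.exp (-s1) * (Real.exp s1 * (X - I * e2)) := by
            have : Real.exp (-(s1 : ℝ)) * (Real.exp s1 * (X - I * e2)) = (Real.exp s1 * Real.exp (-s1)) * (X - I * e2) := by ring
            rw [this, hss]
            ring
          rw [h3] at h2
          have h4 := CNT_tr hGLC e y (I * e2) (Real.exp s1 * (X - I * e2)) s1 t u (2 * p)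
          rw [← h4]
          exact h2)
      rw [hcard] at h1
      refine le_trans ?_ (le_trans h1 (mul_le_mul_of_nonneg_right hCm1 (Nat.cast_nonneg _)))
      exact le_of_eq rfl
    · positivity
    · have : 0 ≤ Λ2 := by linarith
      positivity
  · intro X hX hocc
    have hOX : O X := ⟨hX, hocc⟩
    refine ⟨hXS X hOX, ?_⟩
    intro i hi
    refine Finset.mem_image.mpr ⟨(q ⌊X * E2⌋ X, i), Finset.mem_product.mpr ⟨hqQ X hOX, Finset.mem_Icc.mpr (abs_le.mp hi)⟩, rfl⟩

end

end Pool.Agent.IR
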